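import Pool.Agent.helper3.XT.Spec

/-!
# xt:BLK: blocks
-/

set_option autoImplicit false

namespace Pool.Agent.XT

open Finset SimpleGraph

theorem BLK_emb (n m : ℕ) (S : Finset (Fin n)) (hS : S.card ≤ m) (hm : m ≤ n) :
    ∃ α : Fin m ↪ Fin n, ∀ x ∈ S, ∃ i, α i = x := by
  obtain ⟨T, hST, hT⟩ := Finset.exists_superset_card_eq hS (by rw [Fintype.card_fin]; exact hm)
  refine ⟨(T.orderEmbOfFin hT).toEmbedding, fun x hx => ?_⟩
  have h1 : x ∈ Set.range (T.orderEmbOfFin hT) := by
    rw [Finset.range_orderEmbOfFin]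
    exact hST hx
  exact h1

theorem BLK_block (n m k : ℕ) (hm : 0 < m) :
    (Finset.univ.filter (fun l : Fin n => l.val / m = k)).card ≤ m := by
  have h1 : (Finset.univ.filter (fun l : Fin n => l.val / m = k)).card ≤ (Finset.range m).card := by
    apply Finset.card_le_card_of_injOn (fun l : Fin n => l.val % m)
    · intro l _
      rw [Finset.mem_coe, Finset.mem_range]
      exact Nat.mod_lt _ hm
    · intro l hl l' hl' h
      rw [Finset.mem_coe, Finset.mem_filter] at hl hl'
      apply Fin.ext
      have h2 : l.val % m = l'.val % m := h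
      rw [← Nat.div_add_mod l.val m, ← Nat.div_add_mod l'.val m, hl.2, hl'.2, h2]
  rw [Finset.card_range] at h1
  exact h1

theorem BLK (hADM : ADM_stmt) : BLK_stmt := by
  classical
  intro n m B H f hm hmn hH hB hf
  obtain ⟨α, hα⟩ := BLK_emb n m H hH hmn
  have hk : ∀ k : ℕ, (((B.filter (fun e => e.1 ∈ H)).filter (fun e => e.2.val / m = k)).card : ℝ) ≤ f := by
    intro k
    obtain ⟨β, hβ⟩ := BLK_emb n m _ (BLK_block n m k hm) hmn
    have h1 := (hADM m n α β B hB).2.2
    refine le_trans ?_ (hf _ h1)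
    have h2 : (B.filter (fun e => e.1 ∈ H)).filter (fun e => e.2.val / m = k) ⊆
        (Finset.univ.filter (fun e : Fin m × Fin m => (α e.1, β e.2) ∈ B)).image
          (fun e => (α e.1, β e.2)) := by
      rintro ⟨p, l⟩ he
      rw [Finset.mem_filter, Finset.mem_filter] at he
      obtain ⟨⟨h3, h4⟩, h5⟩ := he
      obtain ⟨i, hi⟩ := hα p h4
      obtain ⟨j, hj⟩ := hβ l (by rw [Finset.mem_filter]; exact ⟨Finset.mem_univ _, h5⟩)
      rw [Finset.mem_image]
      refine ⟨(i, j), ?_, ?_⟩
      · rw [Finset.mem_filter]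
        refine ⟨Finset.mem_univ _, ?_⟩
        show (α i, β j) ∈ B
        rw [hi, hj]
        exact h3
      · show (α i, β j) = (p, l)
        rw [hi, hj]
    exact_mod_cast (Finset.card_le_card h2).trans Finset.card_image_le
  have hf0 : 0 ≤ f := le_trans (by positivity) (hk 0)
  have hsum : (B.filter (fun e => e.1 ∈ H)).card =
      ∑ k ∈ Finset.range (n / m + 1),
        ((B.filter (fun e => e.1 ∈ H)).filter (fun e => e.2.val / m = k)).card := by
    apply Finset.card_eq_sum_card_fiberwise
    intro e _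
    rw [Finset.mem_coe, Finset.mem_range]
    have := Nat.div_le_div_right (c := m) e.2.isLt.le
    show e.2.val / m < n / m + 1
    omega
  rw [hsum]
  push_cast
  calc ∑ k ∈ Finset.range (n / m + 1),
        (((B.filter (fun e => e.1 ∈ H)).filter (fun e => e.2.val / m = k)).card : ℝ)
      ≤ ∑ _k ∈ Finset.range (n / m + 1), f := Finset.sum_le_sum fun k _ => hk k
    _ = (((n / m : ℕ) : ℝ) + 1) * f := by
        rw [Finset.sum_const, Finset.card_range, nsmul_eq_mul]
        push_cast
        ring
    _ ≤ ((n : ℝ) / m + 1) * f := by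
        apply mul_le_mul_of_nonneg_right _ hf0
        have := @Nat.cast_div_le ℝ _ _ _ n m
        linarith

end Pool.Agent.XT
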